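import Pool.Agent.BEH.Stmts
import Pool.Agent.Helper35_BEL.CH2

/-!
# Squad BEH, row ABV: absolute values in `H^1_0`
-/

namespace Pool.Agent.BEH.H32

open Set Filter Topology MeasureTheory
open scoped InnerProductSpace ENNReal
open Pool.Agent.BE01 Pool.Agent.BE01.H69 Pool.Agent.BEL

noncomputable section

/-- The sign. -/
def sg (s : ℝ) : ℝ := if 0 < s then 1 else if s < 0 then -1 else 0

theorem sg_meas : Measurable sg :=
  Measurable.ite measurableSet_Ioi measurable_const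
    (Measurable.ite measurableSet_Iio measurable_const measurable_const)

theorem sg_le (s : ℝ) : |sg s| ≤ 1 := by
  unfold sg
  split_ifs <;> simp

/-- Regularised absolute value. -/
def ph (δ s : ℝ) : ℝ := √(s ^ 2 + δ ^ 2) - δ

theorem ph_pos {δ : ℝ} (hδ : 0 < δ) (s : ℝ) : 0 < s ^ 2 + δ ^ 2 := by positivity

theorem ph_smooth {δ : ℝ} (hδ : 0 < δ) : ContDiff ℝ ((⊤ : ℕ∞) : WithTop ℕ∞) (ph δ) := by
  unfold ph
  refine ContDiff.sub (ContDiff.sqrt ?_ fun s => (ph_pos hδ s).ne') contDiff_const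
  fun_prop

theorem ph_zero {δ : ℝ} (hδ : 0 < δ) : ph δ 0 = 0 := by
  simp [ph, Real.sqrt_sq hδ.le]

theorem ph_hasDeriv {δ : ℝ} (hδ : 0 < δ) (s : ℝ) :
    HasDerivAt (ph δ) (s / √(s ^ 2 + δ ^ 2)) s := by
  unfold ph
  have h1 : HasDerivAt (fun s : ℝ => s ^ 2 + δ ^ 2) (2 * s) s := by
    have := (hasDerivAt_pow 2 s).add_const (δ ^ 2)
    simpa using this
  have h2 := (h1.sqrt (ph_pos hδ s).ne').sub_const δ
  have h3 : 2 * s / (2 * √(s ^ 2 + δ ^ 2)) = s / √(s ^ 2 + δ ^ 2) := by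
    rw [mul_div_mul_left _ _ (by norm_num)]
  rw [h3] at h2
  exact h2

theorem ph_deriv {δ : ℝ} (hδ : 0 < δ) (s : ℝ) : deriv (ph δ) s = s / √(s ^ 2 + δ ^ 2) :=
  (ph_hasDeriv hδ s).deriv

theorem abs_le_sqrt' (δ s : ℝ) : |s| ≤ √(s ^ 2 + δ ^ 2) := by
  refine Real.abs_le_sqrt ?_
  nlinarith [sq_nonneg δ]

theorem ph_deriv_le {δ : ℝ} (hδ : 0 < δ) (s : ℝ) : |deriv (ph δ) s| ≤ 1 := by
  rw [ph_deriv hδ, abs_div, abs_of_nonneg (Real.sqrt_nonneg _)]
  exact div_le_one_of_le₀ (abs_le_sqrt' δ s) (Real.sqrt_nonneg _)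

theorem ph_lim (s : ℝ) {δ : ℕ → ℝ} (hδ : Tendsto δ atTop (𝓝 0)) :
    Tendsto (fun n => ph (δ n) s) atTop (𝓝 |s|) := by
  unfold ph
  have h1 : Tendsto (fun n => √(s ^ 2 + δ n ^ 2) - δ n) atTop (𝓝 (√(s ^ 2 + 0 ^ 2) - 0)) :=
    (((hδ.pow 2).const_add (s ^ 2)).sqrt).sub hδ
  have h2 : √(s ^ 2 + 0 ^ 2) - 0 = |s| := by
    rw [sub_zero]
    simp [Real.sqrt_sq_eq_abs]
  rw [h2] at h1
  exact h1

theorem ph_deriv_lim (s : ℝ) {δ : ℕ → ℝ} (h0 : ∀ n, 0 < δ n) (hδ : Tendsto δ atTop (𝓝 0)) :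
    Tendsto (fun n => deriv (ph (δ n)) s) atTop (𝓝 (sg s)) := by
  have e : (fun n => deriv (ph (δ n)) s) = fun n => s / √(s ^ 2 + δ n ^ 2) := by
    funext n
    exact ph_deriv (h0 n) s
  rw [e]
  rcases eq_or_ne s 0 with h | h
  · subst h
    simp [sg]
  · have h1 : Tendsto (fun n => s / √(s ^ 2 + δ n ^ 2)) atTop (𝓝 (s / √(s ^ 2 + 0 ^ 2))) := by
      refine Tendsto.div tendsto_const_nhds (((hδ.pow 2).const_add (s ^ 2)).sqrt) ?_
      have : 0 < √(s ^ 2 + 0 ^ 2) := Real.sqrt_pos.mpr (by positivity)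
      exact this.ne'
    have h2 : s / √(s ^ 2 + 0 ^ 2) = sg s := by
      have h3 : √(s ^ 2 + 0 ^ 2) = |s| := by simp [Real.sqrt_sq_eq_abs]
      rw [h3]
      unfold sg
      rcases lt_or_gt_of_ne h with h4 | h4
      · rw [if_neg (by linarith), if_pos h4, abs_of_neg h4, div_neg, div_self h]
      · rw [if_pos h4, abs_of_pos h4, div_self h]
    rw [h2] at h1
    exact h1

theorem memLp_sg {d : ℕ} {Ω : Set (En d)} (y : Lp ℝ 2 (mu Ω)) (g : Lp (En d) 2 (mu Ω)) :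
    MemLp (fun x => sg (y x) • g x) 2 (mu Ω) := by
  refine MemLp.of_le_mul (c := 1) (Lp.memLp g) ?_ ?_
  · exact ((sg_meas.comp_aemeasurable (Lp.aestronglyMeasurable y).aemeasurable
      ).aestronglyMeasurable).smul (Lp.aestronglyMeasurable g)
  · refine Eventually.of_forall fun x => ?_
    rw [norm_smul]
    exact mul_le_mul_of_nonneg_right (sg_le _) (norm_nonneg _)

/-- Dominated convergence. -/
theorem lim_sg {d : ℕ} {Ω : Set (En d)} (y : Lp ℝ 2 (mu Ω)) (g : Lp (En d) 2 (mu Ω))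
    {δ : ℕ → ℝ} (h0 : ∀ n, 0 < δ n) (hδ : Tendsto δ atTop (𝓝 0)) (G : ℕ → Lp (En d) 2 (mu Ω))
    (hG : ∀ n, G n =ᵐ[mu Ω] fun x => deriv (ph (δ n)) (y x) • g x) :
    Tendsto G atTop (𝓝 ((memLp_sg y g).toLp _)) := by
  rw [Lp.tendsto_Lp_iff_tendsto_eLpNorm']
  have h5 : ∀ n, eLpNorm (G n - (memLp_sg y g).toLp _ : En d → En d) 2 (mu Ω) =
      (∫⁻ x, ‖(deriv (ph (δ n)) (y x) - sg (y x)) • g x‖ₑ ^ (2 : ℝ) ∂(mu Ω)) ^
        (1 / (2 : ℝ)) := by
    intro n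
    rw [eLpNorm_eq_lintegral_rpow_enorm_toReal (by simp) (by simp)]
    have : (2 : ℝ≥0∞).toReal = 2 := by simp
    rw [this]
    congr 1
    refine lintegral_congr_ae ?_
    filter_upwards [hG n, (memLp_sg y g).coeFn_toLp] with x e1 e2
    rw [Pi.sub_apply, e1, e2, ← sub_smul]
  simp only [h5]
  have h6 : Tendsto (fun n => ∫⁻ x, ‖(deriv (ph (δ n)) (y x) - sg (y x)) • g x‖ₑ ^ (2 : ℝ)
      ∂(mu Ω)) atTop (𝓝 (∫⁻ x, 0 ∂(mu Ω))) := by
    refine tendsto_lintegral_of_dominated_convergence'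
      (fun x => ‖(2 : ℝ) • g x‖ₑ ^ (2 : ℝ)) ?_ ?_ ?_ ?_
    · intro n
      have hc : Continuous (deriv (ph (δ n))) := (ph_smooth (h0 n)).continuous_deriv (by simp)
      exact ((((hc.comp_aestronglyMeasurable (Lp.aestronglyMeasurable y)).sub
        (sg_meas.comp_aemeasurable (Lp.aestronglyMeasurable y).aemeasurable
          ).aestronglyMeasurable).smul (Lp.aestronglyMeasurable g)).enorm).pow_const _
    · intro n
      refine Eventually.of_forall fun x => ?_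
      refine ENNReal.rpow_le_rpow ?_ (by norm_num)
      rw [enorm_le_iff_norm_le, norm_smul, norm_smul]
      refine mul_le_mul_of_nonneg_right ?_ (norm_nonneg _)
      rw [Real.norm_eq_abs, Real.norm_eq_abs, abs_of_nonneg (by norm_num : (0 : ℝ) ≤ 2)]
      have a1 := ph_deriv_le (h0 n) (y x)
      have a2 := sg_le (y x)
      have a3 := abs_sub (deriv (ph (δ n)) (y x)) (sg (y x))
      linarith
    · have h7 : MemLp (fun x => (2 : ℝ) • g x) 2 (mu Ω) := (Lp.memLp g).const_smul (2 : ℝ)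
      have h8 := lintegral_rpow_enorm_lt_top_of_eLpNorm_lt_top (by simp) (by simp)
        h7.eLpNorm_lt_top
      have : (2 : ℝ≥0∞).toReal = 2 := by simp
      rw [this] at h8
      exact h8.ne
    · refine Eventually.of_forall fun x => ?_
      have e1 : Tendsto (fun n => (deriv (ph (δ n)) (y x) - sg (y x)) • g x) atTop (𝓝 0) := by
        have e2 : Tendsto (fun n => deriv (ph (δ n)) (y x) - sg (y x)) atTop (𝓝 0) := by
          have e3 := (ph_deriv_lim (y x) h0 hδ).sub_const (sg (y x))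
          simpa using e3
        simpa using e2.smul_const (g x)
      have e5 : Tendsto (fun n => ‖(deriv (ph (δ n)) (y x) - sg (y x)) • g x‖ₑ) atTop (𝓝 0) := by
        have := e1.enorm
        simpa using this
      have e6 := ((ENNReal.continuous_rpow_const (y := (2 : ℝ))).tendsto 0).comp e5
      rw [ENNReal.zero_rpow_of_pos (by norm_num)] at e6
      exact e6
  have h9 := ((ENNReal.continuous_rpow_const (y := 1 / (2 : ℝ))).tendsto
    (∫⁻ x, 0 ∂(mu Ω))).comp h6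
  rw [lintegral_zero, ENNReal.zero_rpow_of_pos (by norm_num)] at h9
  exact h9

theorem abv : AbvStmt := by
  intro d Ω ι hΩ hι G
  let δ : ℕ → ℝ := fun n => 1 / ((n : ℝ) + 1)
  have h0 : ∀ n, 0 < δ n := fun n => by positivity
  have hδ : Tendsto δ atTop (𝓝 0) := tendsto_one_div_add_atTop_nhds_zero_nat
  have hex : ∀ n, ∃ G' : VV Ω, ι G' =ᵐ[mu Ω] (fun x => ph (δ n) (ι G x)) ∧
      (G' : Lp (En d) 2 (mu Ω)) =ᵐ[mu Ω]
        fun x => deriv (ph (δ n)) (ι G x) • (G : Lp (En d) 2 (mu Ω)) x := fun n =>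
    Pool.Agent.BEL.H35.ch2 d Ω ι (ph (δ n)) 1 hΩ hι (ph_smooth (h0 n)) (ph_zero (h0 n))
      (ph_deriv_le (h0 n)) G
  choose F hF1 hF2 using hex
  have hlim := lim_sg (ι G) (G : Lp (En d) 2 (mu Ω)) h0 hδ
    (fun n => (F n : Lp (En d) 2 (mu Ω))) hF2
  have hL : (memLp_sg (ι G) (G : Lp (En d) 2 (mu Ω))).toLp _ ∈ VV Ω :=
    (VV_closed Ω).mem_of_tendsto hlim (Eventually.of_forall fun n => (F n).2)
  let L : VV Ω := ⟨_, hL⟩
  have hFL : Tendsto F atTop (𝓝 L) := tendsto_subtype_rng.mpr hlim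
  have h1 : Tendsto (fun n => ι (F n)) atTop (𝓝 (ι L)) := (ι.continuous.tendsto L).comp hFL
  obtain ⟨s, hs, hae⟩ := (tendstoInMeasure_of_tendsto_Lp h1).exists_seq_tendsto_ae
  refine ⟨L, ?_, ?_⟩
  · have hall : ∀ᵐ x ∂(mu Ω), ∀ n, ι (F n) x = ph (δ n) (ι G x) :=
      ae_all_iff.mpr hF1
    filter_upwards [hae, hall] with x e1 e2
    have e3 : Tendsto (fun i => ι (F (s i)) x) atTop (𝓝 |ι G x|) := by
      simp only [e2]
      exact (ph_lim (ι G x) hδ).comp hs.tendsto_atTop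
    exact tendsto_nhds_unique e1 e3
  · have h2 : ‖(L : Lp (En d) 2 (mu Ω))‖ ≤ ‖(G : Lp (En d) 2 (mu Ω))‖ := by
      refine Lp.norm_le_norm_of_ae_le ?_
      filter_upwards [(memLp_sg (ι G) (G : Lp (En d) 2 (mu Ω))).coeFn_toLp] with x e1
      have e2 : ((L : Lp (En d) 2 (mu Ω))) x =
          sg (ι G x) • (G : Lp (En d) 2 (mu Ω)) x := e1
      rw [e2, norm_smul]
      have := mul_le_mul_of_nonneg_right (sg_le (ι G x))
        (norm_nonneg ((G : Lp (En d) 2 (mu Ω)) x))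
      rw [one_mul] at this
      exact this
    exact h2

end

end Pool.Agent.BEH.H32
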